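import Mathlib
import Pool.Agent.H63.UWC6

/-!
The triangle is uniquely `{1,2,3}`-weight colourable, and for every set `S` of at least three real
weights the uniquely `S`-weight colourable graphs with an edge are exactly (for `|S| = 3`) the graphs
all of whose components are single vertices or triangles.
-/

set_option autoImplicit false

namespace Pool.Agent.Results.MP_9e9a14_co.TriangleClassification

open Pool.Agent.H63.UWC

universe u

/-- The triangle has exactly one proper edge `{1,2,3}`-weighting up to isomorphism. Moreover for a
finite graph `G` with at least one edge and a set `S` of at least three reals, `G` is uniquely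
`S`-weight colourable if and only if `|S| = 3` and every connected component of `G` is a single
vertex or a triangle. -/
theorem result :
    UniquelyWeightColourable (⊤ : SimpleGraph (Fin 3)) {1, 2, 3} ∧
    ∀ (V : Type u) [Fintype V] (G : SimpleGraph V), G.edgeSet.Nonempty →
      ∀ S : Set ℝ, 3 ≤ S.encard →
        (UniquelyWeightColourable G S ↔
          S.encard = 3 ∧ ∀ c : G.ConnectedComponent, c.supp.ncard = 1 ∨
            Nonempty (G.induce c.supp ≃g (⊤ : SimpleGraph (Fin 3)))) := by
  refine ⟨triangle_uwc _ ?_, ?_⟩
  · have h : ({1, 2, 3} : Set ℝ) = ((({1, 2, 3} : Finset ℝ)) : Set ℝ) := by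
      simp
    rw [h, Set.encard_coe_eq_coe_finsetCard]
    have h2 : ({1, 2, 3} : Finset ℝ).card = 3 := by
      rw [Finset.card_insert_of_notMem, Finset.card_insert_of_notMem, Finset.card_singleton]
      · rw [Finset.mem_singleton]; norm_num
      · rw [Finset.mem_insert, Finset.mem_singleton]; norm_num
    rw [h2]
    rfl
  · intro V _ G hE S hS
    exact classification G hE S hS

end Pool.Agent.Results.MP_9e9a14_co.TriangleClassification
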